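import Pool.Agent.H39.LOB.Graph

/-!
# Trees with a closed labelling of the part outside the leaves of one vertex are harmonious

`lv G r` is the set of the leaves adjacent to `r`. A closed labelling is a map `f : V → ℤ` with `f r = 0`, injective outside
`lv G r`, such that all labels but one are sums of edges outside `lv G r`. The leaves adjacent to `r` get all the other
residues, and the label that is not a sum.
-/

set_option autoImplicit false

namespace Pool.Agent.H57.HV

open Finset Lob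

/-- The leaves adjacent to `r`. -/
def lv {V : Type} (G : SimpleGraph V) (r : V) : Set V := {x | G.Adj r x ∧ ∀ y, G.Adj x y → y = r}

theorem exists_img {V W : Type} [DecidableEq V] [DecidableEq W] [Inhabited W] (S : Finset V)
    (T : Finset W) (h : S.card = T.card) : ∃ f : V → W, S.image f = T := by
  classical
  obtain ⟨e⟩ : Nonempty (S ≃ T) := ⟨Finset.equivOfCardEq h⟩
  refine ⟨fun v => if hv : v ∈ S then (e ⟨v, hv⟩).1 else default, ?_⟩
  ext z
  rw [Finset.mem_image]
  constructor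
  · rintro ⟨v, hv, rfl⟩
    rw [dif_pos hv]
    exact (e ⟨v, hv⟩).2
  · intro hz
    refine ⟨(e.symm ⟨z, hz⟩).1, (e.symm ⟨z, hz⟩).2, ?_⟩
    rw [dif_pos (e.symm ⟨z, hz⟩).2]
    simp

theorem ncard_edge {V : Type} [Fintype V] (G : SimpleGraph V) (hG : G.IsTree) :
    G.edgeSet.ncard + 1 = Fintype.card V := by
  classical
  have h1 := hG.card_edgeFinset
  rw [← SimpleGraph.coe_edgeFinset G, Set.ncard_coe_finset]
  exact h1

theorem closed_harm {V : Type} [Fintype V] (G : SimpleGraph V) (hG : G.IsTree) (r : V)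
    (f : V → ℤ) (D : V) (A : ℤ) (h0 : f r = 0) (hr : ¬ r ∈ lv G r) (hD : D ∉ lv G r)
    (hq : 1 ≤ G.edgeSet.ncard)
    (hinj : ∀ x, x ∉ lv G r → ∀ y, y ∉ lv G r → f x = f y → x = y)
    (hcov : ∀ v, v ∉ lv G r → v ≠ D → ∃ x y, x ∉ lv G r ∧ y ∉ lv G r ∧ G.Adj x y ∧ f x + f y = f v)
    (hA : ∀ v, v ∉ lv G r → A ≤ f v ∧ f v < A + G.edgeSet.ncard) : Harmonious G := by
  classical
  obtain ⟨q, hqe⟩ : ∃ q, q = G.edgeSet.ncard := ⟨_, rfl⟩
  have hV := ncard_edge G hG
  unfold Harmonious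
  rw [← hqe] at hq hA hV ⊢
  have : NeZero q := ⟨by omega⟩
  obtain ⟨S, hS⟩ : ∃ S : Finset V, ∀ v, v ∈ S ↔ v ∉ lv G r :=
    ⟨univ.filter fun v => v ∉ lv G r, fun v => by rw [mem_filter]; exact ⟨fun h => h.2, fun h => ⟨mem_univ _, h⟩⟩⟩
  obtain ⟨L, hL⟩ : ∃ L : Finset V, ∀ v, v ∈ L ↔ v ∈ lv G r :=
    ⟨univ.filter fun v => v ∈ lv G r, fun v => by rw [mem_filter]; exact ⟨fun h => h.2, fun h => ⟨mem_univ _, h⟩⟩⟩
  have hSL : S.card + L.card = Fintype.card V := by
    have h1 : S = Lᶜ := by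
      ext v
      rw [mem_compl, hS, hL]
    rw [h1, card_compl]
    have := L.card_le_univ
    omega
  -- the residues of the labels in `S`
  have hmod : ∀ x ∈ S, ∀ y ∈ S, ((f x : ℤ) : ZMod q) = ((f y : ℤ) : ZMod q) → x = y := by
    intro x hx y hy hxy
    rw [hS] at hx hy
    apply hinj x hx y hy
    rw [ZMod.intCast_eq_intCast_iff_dvd_sub] at hxy
    obtain ⟨c, hc⟩ := hxy
    have h1 := hA x hx
    have h2 := hA y hy
    have h3 : c = 0 := by
      by_contra hne
      rcases lt_or_gt_of_ne hne with h4 | h4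
      · have h5 : (q : ℤ) * c ≤ (q : ℤ) * (-1) := mul_le_mul_of_nonneg_left (by omega) (by omega)
        omega
      · have h5 : (q : ℤ) * 1 ≤ (q : ℤ) * c := mul_le_mul_of_nonneg_left (by omega) (by omega)
        omega
    rw [h3, mul_zero] at hc
    omega
  obtain ⟨T0, hT0⟩ : ∃ T0 : Finset (ZMod q), T0 = S.image (fun v => ((f v : ℤ) : ZMod q)) := ⟨_, rfl⟩
  have hT0c : T0.card = S.card := by
    rw [hT0]
    exact card_image_of_injOn fun x hx y hy h => hmod x hx y hy h
  obtain ⟨T1, hT1⟩ : ∃ T1 : Finset (ZMod q), T1 = insert ((f D : ℤ) : ZMod q) T0ᶜ := ⟨_, rfl⟩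
  have hfD : ((f D : ℤ) : ZMod q) ∈ T0 := by
    rw [hT0]
    exact mem_image_of_mem _ ((hS D).2 hD)
  have hT1c : T1.card = L.card := by
    rw [hT1, card_insert_of_notMem (by rw [mem_compl]; exact fun h => h hfD), card_compl, hT0c,
      ZMod.card]
    have h1 : T0.card ≤ q := by
      have := T0.card_le_univ
      rwa [ZMod.card] at this
    omega
  obtain ⟨g, hg⟩ := exists_img L T1 hT1c.symm
  obtain ⟨F, hF⟩ : ∃ F : V → ZMod q, ∀ v, F v = if v ∈ L then g v else ((f v : ℤ) : ZMod q) :=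
    ⟨_, fun _ => rfl⟩
  have hFS : ∀ v, v ∉ lv G r → F v = ((f v : ℤ) : ZMod q) := by
    intro v hv
    rw [hF, if_neg (fun h => hv ((hL v).1 h))]
  have hFr : F r = 0 := by
    rw [hFS r hr, h0, Int.cast_zero]
  -- every residue is a label and the sum of an edge
  have hall : ∀ y : ZMod q, (∃ v, F v = y) ∧ ∃ a b, G.Adj a b ∧ F a + F b = y := by
    intro y
    by_cases hy : y ∈ T1
    · rw [← hg, mem_image] at hy
      obtain ⟨v, hv, hvy⟩ := hy
      have h1 : F v = y := by
        rw [hF, if_pos hv, hvy]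
      refine ⟨⟨v, h1⟩, r, v, ((hL v).1 hv).1, ?_⟩
      rw [hFr, zero_add, h1]
    · have h1 : y ∈ T0 := by
        by_contra hcon
        apply hy
        rw [hT1]
        exact mem_insert_of_mem (mem_compl.2 hcon)
      rw [hT0, mem_image] at h1
      obtain ⟨v, hv, hvy⟩ := h1
      have hvl := (hS v).1 hv
      have hvD : v ≠ D := by
        rintro rfl
        apply hy
        rw [hT1, ← hvy]
        exact mem_insert_self _ _
      refine ⟨⟨v, by rw [hFS v hvl, hvy]⟩, ?_⟩
      obtain ⟨a, b, ha, hb, hab, hs⟩ := hcov v hvl hvD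
      refine ⟨a, b, hab, ?_⟩
      rw [hFS a ha, hFS b hb, ← Int.cast_add, hs, hvy]
  refine ⟨hq, F, fun h => absurd hG h, fun _ => ?_, ?_⟩
  · refine two_fiber F (fun y => (hall y).1) ?_
    rw [ZMod.card]
    exact hV.symm
  · -- the sums are distinct
    obtain ⟨φ, hφ⟩ : ∃ φ : Sym2 V → ZMod q, ∀ a b, φ s(a, b) = F a + F b :=
      ⟨Sym2.lift ⟨fun a b => F a + F b, fun a b => add_comm _ _⟩, fun a b => rfl⟩
    have hsurj : Function.Surjective (fun e : G.edgeFinset => φ e.1) := by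
      intro y
      obtain ⟨a, b, hab, hs⟩ := (hall y).2
      refine ⟨⟨s(a, b), by rw [SimpleGraph.mem_edgeFinset]; exact hab⟩, ?_⟩
      show φ s(a, b) = y
      rw [hφ, hs]
    have hcard : Fintype.card G.edgeFinset = Fintype.card (ZMod q) := by
      rw [Fintype.card_coe, ZMod.card]
      have := hG.card_edgeFinset
      omega
    have hinj2 : Function.Injective (fun e : G.edgeFinset => φ e.1) :=
      ((Fintype.bijective_iff_surjective_and_card _).2 ⟨hsurj, hcard⟩).1
    intro x y x' y' hxy hxy' hs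
    have h1 : φ s(x, y) = φ s(x', y') := by
      rw [hφ, hφ]
      exact hs
    have h2 := @hinj2 ⟨s(x, y), by rw [SimpleGraph.mem_edgeFinset]; exact hxy⟩
      ⟨s(x', y'), by rw [SimpleGraph.mem_edgeFinset]; exact hxy'⟩ h1
    exact congrArg Subtype.val h2

end Pool.Agent.H57.HV
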