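import Pool.Agent.H57.HV.Main

/-!
# Trees with a vertex with many leaves

If the vertex `r` of a finite tree has a neighbour all of whose other neighbours are leaves, and `r` has sufficiently many
leaves, then the tree is harmonious.
-/

set_option autoImplicit false

namespace Pool.Agent.H57.HV

open Finset Lob

/-- The vertices other than `r` that are not leaves. -/
def nl {V : Type} (G : SimpleGraph V) (r : V) : Set V :=
  {x | x ≠ r ∧ ∃ y z, y ≠ z ∧ G.Adj x y ∧ G.Adj x z}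

theorem exists_pred {V : Type} {G : SimpleGraph V} (hG : G.IsTree) {r x : V} (hx : x ≠ r) :
    ∃ p, G.Adj x p ∧ G.dist p r < G.dist x r := by
  obtain ⟨W, hW⟩ := hG.connected.exists_walk_length_eq_dist x r
  cases W with
  | nil => exact absurd rfl hx
  | cons h W' =>
    refine ⟨_, h, ?_⟩
    have h1 := G.dist_le W'
    rw [SimpleGraph.Walk.length_cons] at hW
    omega

theorem not_lv {V : Type} {G : SimpleGraph V} {r x : V} (h : G.Adj r x) (hx : x ∉ lv G r) :
    ∃ y, G.Adj x y ∧ y ≠ r := by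
  by_contra hcon
  apply hx
  refine ⟨h, fun y hy => ?_⟩
  by_contra hyr
  exact hcon ⟨y, hy, hyr⟩

theorem heavy {V : Type} [Fintype V] (G : SimpleGraph V) (hG : G.IsTree) (r u w : V)
    (hru : G.Adj r u) (huw : G.Adj u w) (hwr : w ≠ r)
    (hleaf : ∀ y, G.Adj u y → y ≠ r → ∀ z, G.Adj y z → z = u)
    (hN : 2 ^ (nl G r).ncard * ((lv G r)ᶜ).ncard ^ 2 ≤ 8 * (lv G r).ncard) : Harmonious G := by
  classical
  obtain ⟨A, hA⟩ : ∃ A : Finset V, ∀ x, x ∈ A ↔ G.Adj r x ∧ x ∉ lv G r ∧ x ≠ u :=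
    ⟨univ.filter fun x => G.Adj r x ∧ x ∉ lv G r ∧ x ≠ u, fun x => by
      rw [mem_filter]; exact ⟨fun h => h.2, fun h => ⟨mem_univ _, h⟩⟩⟩
  obtain ⟨B, hB⟩ : ∃ B : Finset V, ∀ x, x ∈ B ↔ (x ≠ r ∧ ¬ G.Adj r x ∧ ¬ G.Adj u x) ∧ x ∈ nl G r :=
    ⟨univ.filter fun x => (x ≠ r ∧ ¬ G.Adj r x ∧ ¬ G.Adj u x) ∧ x ∈ nl G r, fun x => by
      rw [mem_filter]; exact ⟨fun h => h.2, fun h => ⟨mem_univ _, h⟩⟩⟩
  obtain ⟨L, hL⟩ : ∃ L : Finset V, ∀ x, x ∈ L ↔ (x ≠ r ∧ ¬ G.Adj r x ∧ ¬ G.Adj u x) ∧ x ∉ nl G r :=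
    ⟨univ.filter fun x => (x ≠ r ∧ ¬ G.Adj r x ∧ ¬ G.Adj u x) ∧ x ∉ nl G r, fun x => by
      rw [mem_filter]; exact ⟨fun h => h.2, fun h => ⟨mem_univ _, h⟩⟩⟩
  obtain ⟨C, hC⟩ : ∃ C : Finset V, ∀ x, x ∈ C ↔ G.Adj u x ∧ x ≠ r ∧ x ≠ w :=
    ⟨univ.filter fun x => G.Adj u x ∧ x ≠ r ∧ x ≠ w, fun x => by
      rw [mem_filter]; exact ⟨fun h => h.2, fun h => ⟨mem_univ _, h⟩⟩⟩
  -- the predecessor of a vertex of `B ∪ L`
  have hpred : ∀ x, x ≠ r → ¬ G.Adj r x → ¬ G.Adj u x → ∃ p, G.Adj x p ∧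
      G.dist p r < G.dist x r ∧ (p ∈ A ∨ p ∈ B) := by
    intro x hxr hrx hux
    obtain ⟨p, hxp, hd⟩ := exists_pred hG hxr
    refine ⟨p, hxp, hd, ?_⟩
    have hpr : p ≠ r := fun h => hrx (h ▸ hxp.symm)
    have hpu : p ≠ u := fun h => hux (h ▸ hxp.symm)
    have hup : ¬ G.Adj u p := by
      intro h
      have h1 := hleaf p h hpr x hxp.symm
      exact hrx (h1 ▸ hru)
    by_cases hrp : G.Adj r p
    · left
      rw [hA]
      exact ⟨hrp, fun h => hxr (h.2 x hxp.symm), hpu⟩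
    · right
      rw [hB]
      refine ⟨⟨hpr, hrp, hup⟩, hpr, ?_⟩
      obtain ⟨p', hp', hd'⟩ := exists_pred hG hpr
      exact ⟨x, p', fun h => by rw [← h] at hd'; omega, hxp.symm, hp'⟩
  -- the initial labelling
  obtain ⟨g, hg1, hg2, -⟩ := exists_idx A
  have hst0 : St G A ∅ (fun v => (g v : ℤ) + 1) ((A.card : ℤ) + 1) ((A.card : ℤ) + 1) := by
    refine ⟨by omega, le_rfl, ?_, ?_, ?_, ?_, Or.inl ⟨rfl, rfl⟩⟩
    · intro x _
      show 0 < (g x : ℤ) + 1
      omega
    · intro x hx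
      rw [union_empty] at hx
      have := hg1 x hx
      show (g x : ℤ) + 1 < _
      omega
    · intro x hx y hy e
      rw [union_empty] at hx hy
      have e' : (g x : ℤ) + 1 = (g y : ℤ) + 1 := e
      exact hg2 x hx y hy (by omega)
    · intro x hx
      exact absurd hx (notMem_empty _)
  -- the first phase
  obtain ⟨f1, M1, hst1, hM1⟩ := phase1 (B := B) hst0 (by
    intro x hx h
    rw [hB] at hx
    rw [hA] at h
    exact hx.1.2.1 h.1) (by
    intro S hSB hne
    have hne' : (B \ S).Nonempty := by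
      rw [sdiff_nonempty]
      exact fun h => hne (Subset.antisymm hSB h)
    obtain ⟨x, hx, hmin⟩ := exists_min_image (B \ S) (fun x => G.dist x r) hne'
    rw [mem_sdiff] at hx
    have hxB := (hB x).1 hx.1
    obtain ⟨p, hxp, hd, hp⟩ := hpred x hxB.1.1 hxB.1.2.1 hxB.1.2.2
    refine ⟨x, hx.1, hx.2, p, ?_, hxp⟩
    rw [mem_union]
    rcases hp with hp | hp
    · exact Or.inl hp
    · right
      by_contra hpS
      have := hmin p (mem_sdiff.2 ⟨hp, hpS⟩)
      omega)
  -- the second phase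
  obtain ⟨f2, M2, hst2, hM2⟩ := phase2 hst1 L (by
    intro x hx
    rw [hL] at hx
    rw [mem_union, not_or, hA, hB]
    exact ⟨fun h => hx.1.2.1 h.1, fun h => hx.2 h.2⟩) (by
    intro x hx
    rw [hL] at hx
    obtain ⟨p, hxp, _, hp⟩ := hpred x hx.1.1 hx.1.2.1 hx.1.2.2
    exact ⟨p, mem_union.2 hp, hxp⟩)
  refine closing G hG r u w hru huw hwr hleaf A (B ∪ L) C hA (by
    intro x
    rw [mem_union, hB, hL]
    constructor
    · rintro (h | h)
      · exact h.1
      · exact h.1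
    · intro h
      by_cases h1 : x ∈ nl G r
      · exact Or.inl ⟨h, h1⟩
      · exact Or.inr ⟨h, h1⟩) hC hst2 ?_
  -- the numbers
  have hV := ncard_edge G hG
  have hVl : (lv G r).ncard + ((lv G r)ᶜ).ncard = Fintype.card V := by
    rw [← Nat.card_eq_fintype_card]
    exact Set.ncard_add_ncard_compl _
  have hwr' : ¬ G.Adj r w := fun h1 => hru.ne (hleaf w huw hwr r h1.symm)
  have hCr : ∀ x ∈ C, ¬ G.Adj r x := by
    intro x hx hrx
    rw [hC] at hx
    exact hru.ne (hleaf x hx.1 hx.2.1 r hrx.symm)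
  -- the number of the vertices outside `lv`
  have hk : C.card + L.card + 3 ≤ ((lv G r)ᶜ).ncard := by
    have h1 : (insert r (insert u (insert w (C ∪ L)))).card ≤ ((lv G r)ᶜ).ncard := by
      rw [← Set.ncard_coe_finset]
      refine Set.ncard_le_ncard ?_ (Set.toFinite _)
      intro x hx
      rw [mem_coe, mem_insert, mem_insert, mem_insert, mem_union] at hx
      rw [Set.mem_compl_iff]
      intro hl
      rcases hx with h | h | h | h | h
      · rw [h] at hl
        exact G.loopless.irrefl r hl.1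
      · rw [h] at hl
        exact hwr (hl.2 w huw)
      · rw [h] at hl
        exact hwr' hl.1
      · exact hCr x h hl.1
      · rw [hL] at h
        exact h.1.2.1 hl.1
    have hCL : Disjoint C L := by
      rw [disjoint_left]
      intro x hx hx'
      rw [hC] at hx
      rw [hL] at hx'
      exact hx'.1.2.2 hx.1
    have hw1 : w ∉ C ∪ L := by
      rw [mem_union, not_or, hC, hL]
      exact ⟨fun h => h.2.2 rfl, fun h => h.1.2.2 huw⟩
    have hu1 : u ∉ insert w (C ∪ L) := by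
      rw [mem_insert, mem_union, not_or, not_or, hC, hL]
      exact ⟨huw.ne, fun h => G.loopless.irrefl u h.1, fun h => h.1.2.1 hru⟩
    have hr1 : r ∉ insert u (insert w (C ∪ L)) := by
      rw [mem_insert, mem_insert, mem_union, not_or, not_or, not_or, hC, hL]
      exact ⟨hru.ne, hwr.symm, fun h => h.2.1 rfl, fun h => h.1.1 rfl⟩
    rw [card_insert_of_notMem hr1, card_insert_of_notMem hu1, card_insert_of_notMem hw1,
      card_union_of_disjoint hCL] at h1
    omega
  -- the number of the vertices that are not leaves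
  have hh : A.card + B.card + 1 ≤ (nl G r).ncard := by
    have h1 : (insert u (A ∪ B)).card ≤ (nl G r).ncard := by
      rw [← Set.ncard_coe_finset]
      refine Set.ncard_le_ncard ?_ (Set.toFinite _)
      intro x hx
      rw [mem_coe, mem_insert, mem_union] at hx
      rcases hx with h | h | h
      · rw [h]
        exact ⟨hru.ne', r, w, hwr.symm, hru.symm, huw⟩
      · rw [hA] at h
        obtain ⟨y, hy, hyr⟩ := not_lv h.1 h.2.1
        exact ⟨h.1.ne', y, r, hyr, hy, h.1.symm⟩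
      · rw [hB] at h
        exact h.2
    have hAB : Disjoint A B := by
      rw [disjoint_left]
      intro x hx hx'
      rw [hA] at hx
      rw [hB] at hx'
      exact hx'.1.2.1 hx.1
    have hu1 : u ∉ A ∪ B := by
      rw [mem_union, not_or, hA, hB]
      exact ⟨fun h => h.2.2 rfl, fun h => h.1.2.1 hru⟩
    rw [card_insert_of_notMem hu1, card_union_of_disjoint hAB] at h1
    omega
  obtain ⟨k, hkdef⟩ : ∃ k, k = ((lv G r)ᶜ).ncard := ⟨_, rfl⟩
  obtain ⟨N, hNdef⟩ : ∃ N, N = (lv G r).ncard := ⟨_, rfl⟩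
  obtain ⟨h, hhdef⟩ : ∃ h, h = (nl G r).ncard := ⟨_, rfl⟩
  rw [← hkdef] at hN hVl hk
  rw [← hNdef] at hN hVl
  rw [← hhdef] at hN hh
  -- the estimate
  have e1 : M2 ≤ 2 ^ (A.card + B.card) * (1 + L.card) := by
    have e2 : ((A.card : ℤ) + 1) ≤ 2 ^ A.card := by
      have e3 : A.card + 1 ≤ 2 ^ A.card := Nat.lt_two_pow_self
      exact_mod_cast e3
    have e4 : M1 ≤ 2 ^ (A.card + B.card) := by
      rw [pow_add]
      refine le_trans hM1 ?_
      exact mul_le_mul_of_nonneg_right e2 (by positivity)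
    exact le_trans hM2 (mul_le_mul_of_nonneg_right e4 (by positivity))
  have e5 : M2 * (C.card + 2) ≤ N := by
    have e6 : 4 * (((L.card : ℤ) + 1) * ((C.card : ℤ) + 2)) ≤ (k : ℤ) ^ 2 := by
      have e7 : ((L.card : ℤ) + 1) + ((C.card : ℤ) + 2) ≤ k := by omega
      have e8 : (((L.card : ℤ) + 1) + ((C.card : ℤ) + 2)) ^ 2 ≤ (k : ℤ) ^ 2 :=
        pow_le_pow_left₀ (by positivity) e7 2
      nlinarith [sq_nonneg (((L.card : ℤ) + 1) - ((C.card : ℤ) + 2))]
    have e9 : (2 : ℤ) ^ (A.card + B.card) * 2 ≤ 2 ^ h := by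
      rw [← pow_succ]
      exact pow_le_pow_right₀ (by norm_num) hh
    have e10 : (8 : ℤ) * (M2 * (C.card + 2)) ≤ 8 * N := by
      have hN' : (2 : ℤ) ^ h * (k : ℤ) ^ 2 ≤ 8 * N := by exact_mod_cast hN
      calc (8 : ℤ) * (M2 * (C.card + 2)) ≤
            8 * ((2 ^ (A.card + B.card) * (1 + L.card)) * (C.card + 2)) := by
            apply mul_le_mul_of_nonneg_left _ (by norm_num)
            exact mul_le_mul_of_nonneg_right e1 (by positivity)
        _ = (2 ^ (A.card + B.card) * 2) * (4 * (((L.card : ℤ) + 1) * ((C.card : ℤ) + 2))) := by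
            ring
        _ ≤ 2 ^ h * (k : ℤ) ^ 2 := mul_le_mul e9 e6 (by positivity) (by positivity)
        _ ≤ 8 * N := hN'
    omega
  have e11 : (N : ℤ) < G.edgeSet.ncard := by omega
  omega

end Pool.Agent.H57.HV
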