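import Pool.Agent.H57.HV.Closed

/-!
# The existence of the closed labelling

The vertices are labelled one after the other; the next label is the sum of the last edge.
-/

set_option autoImplicit false

namespace Pool.Agent.H57.HV

open Finset Lob

/-- The vertices of `A ∪ S` have labels in the interval from `1` to `m - 1`; all the labels of `S` but `b`, and the next
label `m`, are sums of edges. -/
structure St {V : Type} [DecidableEq V] (G : SimpleGraph V) (A S : Finset V) (f : V → ℤ) (b m : ℤ) :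
    Prop where
  b0 : 0 < b
  bm : b ≤ m
  pos : ∀ x ∈ A ∪ S, 0 < f x
  lt : ∀ x ∈ A ∪ S, f x < m
  inj : ∀ x ∈ A ∪ S, ∀ y ∈ A ∪ S, f x = f y → x = y
  cov : ∀ x ∈ S, f x ≠ b → ∃ y ∈ A ∪ S, ∃ z ∈ A ∪ S, G.Adj y z ∧ f y + f z = f x
  st : (m = b ∧ S = ∅) ∨ (b < m ∧ (∃ D ∈ S, f D = b) ∧
    ∃ y ∈ A ∪ S, ∃ z ∈ A ∪ S, G.Adj y z ∧ f y + f z = m)

theorem St.step {V : Type} [DecidableEq V] {G : SimpleGraph V} {A S : Finset V} {f : V → ℤ}
    {b m : ℤ} (h : St G A S f b m) {x p : V} (hx : x ∉ A ∪ S) (hp : p ∈ A ∪ S)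
    (hxp : G.Adj x p) : St G A (insert x S) (Function.update f x m) b (m + f p) := by
  have hfp := h.pos p hp
  have hb0 := h.b0
  have hbm := h.bm
  have hmem : ∀ y, y ∈ A ∪ insert x S ↔ y = x ∨ y ∈ A ∪ S := by
    intro y
    simp only [mem_union, mem_insert]
    tauto
  have hupd : ∀ y ∈ A ∪ S, Function.update f x m y = f y := by
    intro y hy
    rw [Function.update_of_ne]
    rintro rfl
    exact hx hy
  have hupx : Function.update f x m x = m := Function.update_self _ _ _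
  have hS : ∀ y ∈ S, y ∈ A ∪ S := fun y hy => mem_union_right _ hy
  have lift : ∀ c : ℤ, (∃ y ∈ A ∪ S, ∃ z ∈ A ∪ S, G.Adj y z ∧ f y + f z = c) →
      ∃ y ∈ A ∪ insert x S, ∃ z ∈ A ∪ insert x S, G.Adj y z ∧
        Function.update f x m y + Function.update f x m z = c := by
    rintro c ⟨y, hy, z, hz, hyz, e⟩
    refine ⟨y, (hmem y).2 (Or.inr hy), z, (hmem z).2 (Or.inr hz), hyz, ?_⟩
    rw [hupd y hy, hupd z hz]
    exact e
  refine ⟨hb0, by omega, ?_, ?_, ?_, ?_, ?_⟩
  · intro y hy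
    rcases (hmem y).1 hy with rfl | hy
    · rw [hupx]; omega
    · rw [hupd y hy]; exact h.pos y hy
  · intro y hy
    rcases (hmem y).1 hy with rfl | hy
    · rw [hupx]; omega
    · rw [hupd y hy]
      have := h.lt y hy
      omega
  · intro y hy z hz e
    rcases (hmem y).1 hy with hyx | hy' <;> rcases (hmem z).1 hz with hzx | hz'
    · rw [hyx, hzx]
    · rw [hyx, hupx, hupd z hz'] at e
      have := h.lt z hz'
      omega
    · rw [hzx, hupx, hupd y hy'] at e
      have := h.lt y hy'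
      omega
    · rw [hupd y hy', hupd z hz'] at e
      exact h.inj y hy' z hz' e
  · intro y hy hyb
    rcases mem_insert.1 hy with rfl | hy
    · rw [hupx] at hyb ⊢
      rcases h.st with h1 | h1
      · exact absurd h1.1 hyb
      · exact lift m h1.2.2
    · rw [hupd y (hS y hy)] at hyb ⊢
      exact lift _ (h.cov y hy hyb)
  · right
    refine ⟨by omega, ?_, x, (hmem x).2 (Or.inl rfl), p, (hmem p).2 (Or.inr hp), hxp, ?_⟩
    · rcases h.st with h1 | h1
      · exact ⟨x, mem_insert_self _ _, by rw [hupx]; exact h1.1⟩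
      · obtain ⟨D, hD, hDb⟩ := h1.2.1
        exact ⟨D, mem_insert_of_mem hD, by rw [hupd D (hS D hD)]; exact hDb⟩
    · rw [hupx, hupd p hp]

/-- The first phase: every vertex of `B` is labelled, the labels at most double. -/
theorem phase1 {V : Type} [DecidableEq V] {G : SimpleGraph V} {A B : Finset V} {f : V → ℤ}
    {b : ℤ} (h : St G A ∅ f b b) (hAB : ∀ x ∈ B, x ∉ A)
    (hc : ∀ S, S ⊆ B → S ≠ B → ∃ x ∈ B, x ∉ S ∧ ∃ p ∈ A ∪ S, G.Adj x p) :
    ∃ f' m, St G A B f' b m ∧ m ≤ b * 2 ^ B.card := by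
  have key : ∀ n, n ≤ B.card → ∃ S, S ⊆ B ∧ S.card = n ∧
      ∃ f' m, St G A S f' b m ∧ m ≤ b * 2 ^ n := by
    intro n
    induction n with
    | zero =>
      intro _
      exact ⟨∅, empty_subset _, card_empty, f, b, h, by rw [pow_zero, mul_one]⟩
    | succ n ih =>
      intro hn
      obtain ⟨S, hSB, hSn, f', m, hst, hm⟩ := ih (by omega)
      obtain ⟨x, hx, hxS, p, hp, hxp⟩ := hc S hSB (by rintro rfl; omega)
      refine ⟨insert x S, insert_subset hx hSB, by rw [card_insert_of_notMem hxS, hSn],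
        _, _, hst.step (x := x) (p := p) ?_ hp hxp, ?_⟩
      · rw [mem_union, not_or]
        exact ⟨hAB x hx, hxS⟩
      · have h1 := hst.lt p hp
        rw [pow_succ, ← mul_assoc]
        omega
  obtain ⟨S, hSB, hSn, f', m, hst, hm⟩ := key B.card le_rfl
  have hS : S = B := eq_of_subset_of_card_le hSB hSn.ge
  rw [hS] at hst
  exact ⟨f', m, hst, hm⟩

/-- The second phase: the vertices of `L` have neighbours in `A ∪ B`. -/
theorem phase2 {V : Type} [DecidableEq V] {G : SimpleGraph V} {A B : Finset V} {f : V → ℤ}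
    {b m : ℤ} (h : St G A B f b m) (L : Finset V) (hL : ∀ x ∈ L, x ∉ A ∪ B)
    (hc : ∀ x ∈ L, ∃ p ∈ A ∪ B, G.Adj x p) :
    ∃ f' m', St G A (B ∪ L) f' b m' ∧ m' ≤ m * (1 + L.card) := by
  have key : ∀ T : Finset V, T ⊆ L → ∃ f' m', St G A (B ∪ T) f' b m' ∧ m' ≤ m * (1 + T.card) ∧
      ∀ x ∈ A ∪ B, f' x < m := by
    intro T
    induction T using Finset.induction_on with
    | empty =>
      intro _
      refine ⟨f, m, by rw [union_empty]; exact h, ?_, h.lt⟩
      rw [card_empty]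
      push_cast
      omega
    | insert x T hxT ih =>
      intro hT
      obtain ⟨f', m', hst, hm, hlt⟩ := ih (fun y hy => hT (mem_insert_of_mem hy))
      have hx : x ∈ L := hT (mem_insert_self _ _)
      obtain ⟨p, hp, hxp⟩ := hc x hx
      have hp' : p ∈ A ∪ (B ∪ T) := by
        rw [← union_assoc]
        exact mem_union_left _ hp
      have hx' : x ∉ A ∪ (B ∪ T) := by
        rw [← union_assoc, mem_union, not_or]
        exact ⟨hL x hx, hxT⟩
      refine ⟨_, _, (by rw [union_insert]; exact hst.step hx' hp' hxp), ?_, ?_⟩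
      · rw [card_insert_of_notMem hxT]
        push_cast
        have h1 := hlt p hp
        nlinarith
      · intro y hy
        rw [Function.update_of_ne]
        · exact hlt y hy
        · rintro rfl
          exact hL _ hx hy
  obtain ⟨f', m', h1, h2, -⟩ := key L (Subset.refl L)
  exact ⟨f', m', h1, h2⟩

theorem exists_idx {V : Type} [DecidableEq V] (C : Finset V) : ∃ g : V → ℕ,
    (∀ x ∈ C, g x < C.card) ∧ (∀ x ∈ C, ∀ y ∈ C, g x = g y → x = y) ∧
      ∀ i, i < C.card → ∃ x ∈ C, g x = i := by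
  classical
  refine ⟨fun v => if h : v ∈ C then (C.equivFin ⟨v, h⟩ : ℕ) else 0, ?_, ?_, ?_⟩
  · intro x hx
    show (if h : x ∈ C then (C.equivFin ⟨x, h⟩ : ℕ) else 0) < _
    rw [dif_pos hx]
    exact (C.equivFin ⟨x, hx⟩).2
  · intro x hx y hy e
    have e' : (if h : x ∈ C then (C.equivFin ⟨x, h⟩ : ℕ) else 0) =
      (if h : y ∈ C then (C.equivFin ⟨y, h⟩ : ℕ) else 0) := e
    rw [dif_pos hx, dif_pos hy] at e'
    have e1 := C.equivFin.injective (Fin.ext e')
    exact congrArg Subtype.val e1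
  · intro i hi
    refine ⟨(C.equivFin.symm ⟨i, hi⟩).1, (C.equivFin.symm ⟨i, hi⟩).2, ?_⟩
    show (if h : (C.equivFin.symm ⟨i, hi⟩).1 ∈ C then
      (C.equivFin ⟨(C.equivFin.symm ⟨i, hi⟩).1, h⟩ : ℕ) else 0) = i
    rw [dif_pos (C.equivFin.symm ⟨i, hi⟩).2]
    simp

/-- The last phase: the vertex `u` and its neighbours. -/
theorem closing {V : Type} [Fintype V] [DecidableEq V] (G : SimpleGraph V) (hG : G.IsTree)
    (r u w : V) (hru : G.Adj r u) (huw : G.Adj u w) (hwr : w ≠ r)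
    (hleaf : ∀ y, G.Adj u y → y ≠ r → ∀ z, G.Adj y z → z = u) (A B C : Finset V)
    (hA : ∀ x, x ∈ A ↔ G.Adj r x ∧ x ∉ lv G r ∧ x ≠ u)
    (hB : ∀ x, x ∈ B ↔ x ≠ r ∧ ¬ G.Adj r x ∧ ¬ G.Adj u x)
    (hC : ∀ x, x ∈ C ↔ G.Adj u x ∧ x ≠ r ∧ x ≠ w) {f : V → ℤ} {b M : ℤ} (h : St G A B f b M)
    (hq : M * (C.card + 2) < G.edgeSet.ncard) : Harmonious G := by
  have hb0 := h.b0
  have hbm := h.bm
  have hM0 : 0 < M := by omega
  obtain ⟨g, hg1, hg2, hg3⟩ := exists_idx C
  -- the classes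
  have hur : u ≠ r := hru.ne'
  have hwu : w ≠ u := huw.ne'
  have hCr : ∀ x ∈ C, ¬ G.Adj r x := by
    intro x hx hrx
    have h1 := (hC x).1 hx
    exact hru.ne (hleaf x h1.1 h1.2.1 r hrx.symm)
  have hwr' : ¬ G.Adj r w := fun h1 => hru.ne (hleaf w huw hwr r h1.symm)
  have hcl : ∀ v, v ∉ lv G r → v = r ∨ v = u ∨ v = w ∨ v ∈ C ∨ v ∈ A ∪ B := by
    intro v hv
    by_cases h1 : v = r
    · exact Or.inl h1
    by_cases h2 : v = u
    · exact Or.inr (Or.inl h2)
    by_cases h3 : v = w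
    · exact Or.inr (Or.inr (Or.inl h3))
    by_cases h4 : G.Adj r v
    · exact Or.inr (Or.inr (Or.inr (Or.inr (mem_union_left _ ((hA v).2 ⟨h4, hv, h2⟩)))))
    by_cases h5 : G.Adj u v
    · exact Or.inr (Or.inr (Or.inr (Or.inl ((hC v).2 ⟨h5, h1, h3⟩))))
    · exact Or.inr (Or.inr (Or.inr (Or.inr (mem_union_right _ ((hB v).2 ⟨h1, h4, h5⟩)))))
  have hrlv : r ∉ lv G r := fun h1 => G.loopless.irrefl r h1.1
  have hulv : u ∉ lv G r := fun h1 => hwr (h1.2 w huw)
  have hwlv : w ∉ lv G r := fun h1 => hwr' h1.1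
  have hClv : ∀ x ∈ C, x ∉ lv G r := fun x hx h1 => hCr x hx h1.1
  have hABlv : ∀ x ∈ A ∪ B, x ∉ lv G r := by
    intro x hx
    rcases mem_union.1 hx with hx | hx
    · exact ((hA x).1 hx).2.1
    · exact fun h1 => ((hB x).1 hx).2.1 h1.1
  -- the labels
  obtain ⟨F, hF⟩ : ∃ F : V → ℤ, ∀ v, F v = if v = r then 0 else if v = u then -M else
      if v = w then M else if v ∈ C then b + (g v + 1) * M else f v := ⟨_, fun _ => rfl⟩
  have Fr : F r = 0 := by rw [hF, if_pos rfl]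
  have Fu : F u = -M := by rw [hF, if_neg hur, if_pos rfl]
  have Fw : F w = M := by rw [hF, if_neg hwr, if_neg hwu, if_pos rfl]
  have FC : ∀ x ∈ C, F x = b + (g x + 1) * M := by
    intro x hx
    have h1 := (hC x).1 hx
    rw [hF, if_neg h1.2.1, if_neg h1.1.ne', if_neg h1.2.2, if_pos hx]
  have FAB : ∀ x ∈ A ∪ B, F x = f x := by
    intro x hx
    have h1 : x ≠ r ∧ x ≠ u ∧ x ≠ w ∧ x ∉ C := by
      rcases mem_union.1 hx with hx | hx
      · have h2 := (hA x).1 hx
        exact ⟨h2.1.ne', h2.2.2, fun h3 => hwr' (h3 ▸ h2.1), fun h3 => hCr x h3 h2.1⟩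
      · have h2 := (hB x).1 hx
        exact ⟨h2.1, fun h3 => h2.2.1 (h3 ▸ hru), fun h3 => h2.2.2 (h3 ▸ huw),
          fun h3 => h2.2.2 ((hC x).1 h3).1⟩
    rw [hF, if_neg h1.1, if_neg h1.2.1, if_neg h1.2.2.1, if_neg h1.2.2.2]
  have hCM : ∀ x ∈ C, M < F x ∧ F x ≤ M * (C.card + 1) := by
    intro x hx
    rw [FC x hx]
    have h1 := hg1 x hx
    have h2 : ((g x : ℤ) + 1) ≤ (C.card : ℤ) := by exact_mod_cast h1
    have h3 : ((g x : ℤ) + 1) * M ≤ (C.card : ℤ) * M := mul_le_mul_of_nonneg_right h2 hM0.le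
    have h4 : 0 ≤ (g x : ℤ) * M := mul_nonneg (Int.natCast_nonneg _) hM0.le
    constructor
    · nlinarith
    · nlinarith
  have hABM : ∀ x ∈ A ∪ B, 0 < F x ∧ F x < M := by
    intro x hx
    rw [FAB x hx]
    exact ⟨h.pos x hx, h.lt x hx⟩
  have hcc : (0 : ℤ) ≤ M * C.card := mul_nonneg hM0.le (Int.natCast_nonneg _)
  -- the first child
  have hC0 : C.Nonempty → ∃ x y, x ∉ lv G r ∧ y ∉ lv G r ∧ G.Adj x y ∧ F x + F y = b := by
    intro hne
    obtain ⟨x, hx, hgx⟩ := hg3 0 (card_pos.2 hne)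
    refine ⟨x, u, hClv x hx, hulv, ((hC x).1 hx).1.symm, ?_⟩
    rw [FC x hx, Fu, hgx]
    push_cast
    ring
  have lift : ∀ c : ℤ, (∃ y ∈ A ∪ B, ∃ z ∈ A ∪ B, G.Adj y z ∧ f y + f z = c) →
      ∃ x y, x ∉ lv G r ∧ y ∉ lv G r ∧ G.Adj x y ∧ F x + F y = c := by
    rintro c ⟨y, hy, z, hz, hyz, e⟩
    exact ⟨y, z, hABlv y hy, hABlv z hz, hyz, by rw [FAB y hy, FAB z hz]; exact e⟩
  -- the exception
  obtain ⟨D, hDlv, hD⟩ : ∃ D, D ∉ lv G r ∧ ((∃ x ∈ C, x = D ∧ g x + 1 = C.card) ∨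
      (C = ∅ ∧ ((B = ∅ ∧ D = w) ∨ (b < M ∧ D ∈ B ∧ f D = b)))) := by
    by_cases hne : C.Nonempty
    · have hpos := card_pos.2 hne
      obtain ⟨x, hx, hgx⟩ := hg3 (C.card - 1) (by omega)
      exact ⟨x, hClv x hx, Or.inl ⟨x, hx, rfl, by omega⟩⟩
    · have hC' := not_nonempty_iff_eq_empty.1 hne
      rcases h.st with h1 | h1
      · exact ⟨w, hwlv, Or.inr ⟨hC', Or.inl ⟨h1.2, rfl⟩⟩⟩
      · obtain ⟨D, hD, hDb⟩ := h1.2.1
        exact ⟨D, hABlv D (mem_union_right _ hD), Or.inr ⟨hC', Or.inr ⟨h1.1, hD, hDb⟩⟩⟩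
  refine closed_harm G hG r F D (-M) Fr hrlv hDlv (by
    have h1 : 0 < (G.edgeSet.ncard : ℤ) := by nlinarith
    omega) ?_ ?_ ?_
  · -- injective
    intro x hx y hy e
    have hcx := hcl x hx
    have hcy := hcl y hy
    rcases hcx with hx1 | hx1 | hx1 | hx1 | hx1 <;> rcases hcy with hy1 | hy1 | hy1 | hy1 | hy1
    · rw [hx1, hy1]
    · exfalso; rw [hx1, hy1, Fr, Fu] at e; omega
    · exfalso; rw [hx1, hy1, Fr, Fw] at e; omega
    · exfalso; rw [hx1, Fr] at e; have h1 := hCM y hy1; omega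
    · exfalso; rw [hx1, Fr] at e; have h1 := hABM y hy1; omega
    · exfalso; rw [hx1, hy1, Fr, Fu] at e; omega
    · rw [hx1, hy1]
    · exfalso; rw [hx1, hy1, Fu, Fw] at e; omega
    · exfalso; rw [hx1, Fu] at e; have h1 := hCM y hy1; omega
    · exfalso; rw [hx1, Fu] at e; have h1 := hABM y hy1; omega
    · exfalso; rw [hx1, hy1, Fr, Fw] at e; omega
    · exfalso; rw [hx1, hy1, Fu, Fw] at e; omega
    · rw [hx1, hy1]
    · exfalso; rw [hx1, Fw] at e; have h1 := hCM y hy1; omega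
    · exfalso; rw [hx1, Fw] at e; have h1 := hABM y hy1; omega
    · exfalso; rw [hy1, Fr] at e; have h1 := hCM x hx1; omega
    · exfalso; rw [hy1, Fu] at e; have h1 := hCM x hx1; omega
    · exfalso; rw [hy1, Fw] at e; have h1 := hCM x hx1; omega
    · rw [FC x hx1, FC y hy1] at e
      have h1 : ((g x : ℤ) + 1) * M = ((g y : ℤ) + 1) * M := by linarith
      have h2 := mul_right_cancel₀ hM0.ne' h1
      exact hg2 x hx1 y hy1 (by omega)
    · exfalso; have h1 := hCM x hx1; have h2 := hABM y hy1; omega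
    · exfalso; rw [hy1, Fr] at e; have h1 := hABM x hx1; omega
    · exfalso; rw [hy1, Fu] at e; have h1 := hABM x hx1; omega
    · exfalso; rw [hy1, Fw] at e; have h1 := hABM x hx1; omega
    · exfalso; have h1 := hABM x hx1; have h2 := hCM y hy1; omega
    · rw [FAB x hx1, FAB y hy1] at e
      exact h.inj x hx1 y hy1 e
  · -- the sums
    intro v hv hvD
    rcases hcl v hv with h1 | h1 | h1 | h1 | h1
    · exact ⟨w, u, hwlv, hulv, huw.symm, by rw [h1, Fw, Fu, Fr]; ring⟩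
    · exact ⟨r, u, hrlv, hulv, hru, by rw [h1, Fr, zero_add]⟩
    · -- `w`
      rw [h1, Fw]
      rcases h.st with h2 | h2
      · by_cases hne : C.Nonempty
        · obtain ⟨x, y, hx, hy, hxy, e⟩ := hC0 hne
          exact ⟨x, y, hx, hy, hxy, by rw [e, h2.1]⟩
        · exfalso
          rcases hD with ⟨x, hx, _⟩ | ⟨_, h3 | h3⟩
          · exact hne ⟨x, hx⟩
          · exact hvD (by rw [h1, h3.2])
          · omega
      · exact lift M h2.2.2
    · -- the children
      by_cases h2 : g v + 1 = C.card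
      · exfalso
        rcases hD with ⟨x, hx, hxD, hgx⟩ | ⟨h3, _⟩
        · apply hvD
          rw [← hxD]
          exact hg2 v h1 x hx (by omega)
        · rw [h3] at h1
          exact absurd h1 (notMem_empty _)
      · have h3 := hg1 v h1
        obtain ⟨x, hx, hgx⟩ := hg3 (g v + 1) (by omega)
        refine ⟨x, u, hClv x hx, hulv, ((hC x).1 hx).1.symm, ?_⟩
        rw [FC x hx, Fu, FC v h1, hgx]
        push_cast
        ring
    · rcases mem_union.1 h1 with h2 | h2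
      · exact ⟨r, v, hrlv, hv, ((hA v).1 h2).1, by rw [Fr, zero_add]⟩
      · by_cases h3 : f v = b
        · rw [FAB v h1, h3]
          by_cases hne : C.Nonempty
          · exact hC0 hne
          · exfalso
            rcases hD with ⟨x, hx, _⟩ | ⟨_, h4 | h4⟩
            · exact hne ⟨x, hx⟩
            · rw [h4.1] at h2
              exact absurd h2 (notMem_empty _)
            · exact hvD (h.inj v h1 D (mem_union_right _ h4.2.1) (by rw [h3, h4.2.2]))
        · rw [FAB v h1]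
          exact lift _ (h.cov v h2 h3)
  · -- the interval
    intro v hv
    have h0 : M * (C.card + 1) = M * C.card + M := by ring
    have h0' : M * (C.card + 2) = M * C.card + 2 * M := by ring
    rcases hcl v hv with h1 | h1 | h1 | h1 | h1
    · rw [h1, Fr]; omega
    · rw [h1, Fu]; omega
    · rw [h1, Fw]; omega
    · have h2 := hCM v h1
      omega
    · have h2 := hABM v h1
      omega

end Pool.Agent.H57.HV
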